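import Mathlib
import Pool.Agent.Helper176.BMfar

/-!
# For every infinite compact Hausdorff `K` the isomorphism class of `C(K)` has infinite diameter

In particular this holds for every Kunen compact (a Kunen compact is nonmetrizable, so infinite).
-/

set_option autoImplicit false

namespace Pool.Agent.Results.MP_d900b7_an.AllCompact

universe u

/-- For every infinite compact Hausdorff space `K` and every real `M` there are two Banach spaces
`Y` and `Z`, both isomorphic to `C(K)`, such that `M ≤ ‖T‖ ‖T⁻¹‖` for every isomorphism `T` of `Y`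
onto `Z`; that is, the Banach-Mazur distance `d(Y, Z)` is at least `M`. So `D(C(K)) = ∞`. -/
theorem result (K : Type u) [TopologicalSpace K] [CompactSpace K] [T2Space K] [Infinite K]
    (M : ℝ) :
    ∃ (Y Z : Type u) (_ : NormedAddCommGroup Y) (_ : NormedSpace ℝ Y) (_ : CompleteSpace Y)
      (_ : NormedAddCommGroup Z) (_ : NormedSpace ℝ Z) (_ : CompleteSpace Z),
      Nonempty (Y ≃L[ℝ] C(K, ℝ)) ∧ Nonempty (Z ≃L[ℝ] C(K, ℝ)) ∧
      ∀ T : Y ≃L[ℝ] Z, M ≤ ‖(T : Y →L[ℝ] Z)‖ * ‖(T.symm : Z →L[ℝ] Y)‖ := by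
  obtain ⟨Y, i1, i2, i3, hY, hfar⟩ := Pool.Agent.Helper176.exists_far K M
  exact ⟨Y, C(K, ℝ), i1, i2, i3, inferInstance, inferInstance, inferInstance, hY,
    ⟨ContinuousLinearEquiv.refl ℝ _⟩, hfar⟩

end Pool.Agent.Results.MP_d900b7_an.AllCompact
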