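import Mathlib
import Pool.Agent.Helper176.BMfar

/-!
# The Banach-Mazur diameter of `C(K)` for a Kunen compact `K` is infinite

The proof uses only that `K` is an infinite compact Hausdorff space: `C(K)` is isomorphic to
`Y = V × ℓ₂ⁿ` (max norm) for a closed subspace `V`, and every isomorphism of `Y` onto `C(K)` has
distortion at least `n ^ (1/4)` because `ℓ₂ⁿ` is not uniformly complemented in `C(K)`.
-/

set_option autoImplicit false

namespace Pool.Agent.Results.MP_d900b7_an.KunenDiameter

universe u v

/-- The Banach-Mazur distance of two real normed spaces: the infimum of `‖T‖ ‖T⁻¹‖` over all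
linear isomorphisms `T` of `Y` onto `Z` (it is `∞` if there is none). -/
noncomputable def bmDist (Y : Type u) (Z : Type v) [NormedAddCommGroup Y] [NormedSpace ℝ Y]
    [NormedAddCommGroup Z] [NormedSpace ℝ Z] : ENNReal :=
  ⨅ T : Y ≃L[ℝ] Z, ENNReal.ofReal (‖(T : Y →L[ℝ] Z)‖ * ‖(T.symm : Z →L[ℝ] Y)‖)

/-- `D(X)`: the supremum of the Banach-Mazur distances `d(Y, Z)` over all pairs of Banach spaces
`Y, Z` isomorphic to `X`. -/
noncomputable def bmDiam (X : Type u) [NormedAddCommGroup X] [NormedSpace ℝ X] : ENNReal :=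
  sSup {d : ENNReal | ∃ (Y Z : Type u) (_ : NormedAddCommGroup Y) (_ : NormedSpace ℝ Y)
    (_ : CompleteSpace Y) (_ : NormedAddCommGroup Z) (_ : NormedSpace ℝ Z) (_ : CompleteSpace Z),
    Nonempty (Y ≃L[ℝ] X) ∧ Nonempty (Z ≃L[ℝ] X) ∧ d = bmDist Y Z}

/-- A Kunen compact: a scattered nonmetrizable compact Hausdorff space `K` such that `C(K)*` with
the weak* topology is hereditarily separable and `C(K)` with the weak topology is hereditarily
Lindelöf. -/
structure IsKunenCompact (K : Type u) [TopologicalSpace K] : Prop where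
  compact : CompactSpace K
  hausdorff : T2Space K
  scattered : ∀ L : Set K, IsClosed L → L.Nonempty →
    ∃ x ∈ L, ∃ U : Set K, IsOpen U ∧ U ∩ L = {x}
  not_metrizable : ¬ TopologicalSpace.MetrizableSpace K
  dual_hereditarily_separable :
    ∀ S : Set (WeakDual ℝ C(K, ℝ)), TopologicalSpace.SeparableSpace S
  weak_hereditarily_lindelof :
    ∀ S : Set (WeakSpace ℝ C(K, ℝ)), LindelofSpace S

/-- A Kunen compact is infinite. -/
lemma IsKunenCompact.infinite {K : Type u} [TopologicalSpace K] (hK : IsKunenCompact K) :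
    Infinite K := by
  have := hK.hausdorff
  by_contra hcon
  rw [not_infinite_iff_finite] at hcon
  exact hK.not_metrizable inferInstance

/-- The general fact: `D(C(K)) = ∞` for every infinite compact Hausdorff space `K`. -/
theorem bmDiam_CK (K : Type u) [TopologicalSpace K] [CompactSpace K] [T2Space K] [Infinite K] :
    bmDiam C(K, ℝ) = ⊤ := by
  refine ENNReal.eq_top_of_forall_nnreal_le (fun r => ?_)
  obtain ⟨Y, i1, i2, i3, hY, hfar⟩ := Pool.Agent.Helper176.exists_far K (r : ℝ)
  refine le_trans ?_ (le_sSup ⟨Y, C(K, ℝ), i1, i2, i3, inferInstance, inferInstance,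
    inferInstance, hY, ⟨ContinuousLinearEquiv.refl ℝ _⟩, rfl⟩)
  refine le_iInf (fun T => ?_)
  rw [← ENNReal.ofReal_coe_nnreal]
  exact ENNReal.ofReal_le_ofReal (hfar T)

/-- **Answer to Q1.** For every Kunen compact `K`, the Banach-Mazur diameter `D(C(K))` is
infinite. -/
theorem result (K : Type u) [TopologicalSpace K] [CompactSpace K] [T2Space K]
    (hK : IsKunenCompact K) : bmDiam C(K, ℝ) = ⊤ := by
  have := hK.infinite
  exact bmDiam_CK K

end Pool.Agent.Results.MP_d900b7_an.KunenDiameter
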